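import Pool.Agent.Lib_helper50.ConnBij.Push

/-!
# Connected bijections of `ℝⁿ` (MP_8f6e3d_gt), part 2: the dense canals
-/

open Set Metric Topology

namespace ConnBij

variable {E : Type*} [NormedAddCommGroup E] [NormedSpace ℝ E] [FiniteDimensional ℝ E]

/-- The lattice `ℤ • e`. -/
def Pt (e : E) : Set E := range (fun m : ℤ => (m : ℝ) • e)

/-- The distance to the lattice. -/
noncomputable def rho (e : E) (v : E) : ℝ := infDist v (Pt e)

lemma Pt_nonempty (e : E) : (Pt e).Nonempty := ⟨_, ⟨0, rfl⟩⟩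

lemma continuous_rho (e : E) : Continuous (rho e) := continuous_infDist_pt _

lemma rho_nonneg (e v : E) : 0 ≤ rho e v := infDist_nonneg

lemma isClosed_Pt {e : E} (he : ‖e‖ = 1) : IsClosed (Pt e) := by
  have h1 : Isometry (fun t : ℝ => t • e) := by
    apply Isometry.of_dist_eq
    intro x y
    rw [dist_eq_norm, ← sub_smul, norm_smul, he, mul_one, Real.dist_eq, Real.norm_eq_abs]
  have h2 := h1.isClosedEmbedding.comp Int.isClosedEmbedding_coe_real
  exact h2.isClosed_range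

lemma rho_eq_zero {e : E} (he : ‖e‖ = 1) (v : E) : rho e v = 0 ↔ ∃ m : ℤ, v = (m : ℝ) • e := by
  rw [rho, ← (isClosed_Pt he).mem_iff_infDist_zero (Pt_nonempty e)]
  constructor
  · rintro ⟨m, rfl⟩; exact ⟨m, rfl⟩
  · rintro ⟨m, rfl⟩; exact ⟨m, rfl⟩

lemma dist_lattice {e : E} (he : ‖e‖ = 1) (m n : ℤ) (h : m ≠ n) :
    1 ≤ dist ((m : ℝ) • e) ((n : ℝ) • e) := by
  rw [dist_eq_norm, ← sub_smul, norm_smul, he, mul_one, Real.norm_eq_abs]
  have : (1 : ℤ) ≤ |m - n| := Int.one_le_abs (sub_ne_zero.2 h)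
  exact_mod_cast this

/-- Near a lattice point the distance to the lattice is the distance to that point. -/
lemma rho_eq_dist {e : E} (he : ‖e‖ = 1) (v : E) (m : ℤ) (h : dist v ((m : ℝ) • e) ≤ 1 / 2) :
    rho e v = dist v ((m : ℝ) • e) := by
  apply le_antisymm
  · exact infDist_le_dist_of_mem ⟨m, rfl⟩
  · apply (le_infDist (Pt_nonempty e)).2
    rintro _ ⟨n, rfl⟩
    by_cases hmn : m = n
    · rw [hmn]
    · have h1 := dist_lattice he m n hmn
      have h2 := dist_triangle_left ((m : ℝ) • e) ((n : ℝ) • e) v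
      simp only
      linarith

/-- The land at stage `t`. -/
def land (e : E) (t : ℝ) : Set (ℝ × E) := {x | rho e x.2 < |x.1|} ∪ {x | rho e x.2 < t}

lemma isOpen_land (e : E) (t : ℝ) : IsOpen (land e t) := by
  apply IsOpen.union
  · exact isOpen_lt ((continuous_rho e).comp continuous_snd) (continuous_fst.abs)
  · exact isOpen_lt ((continuous_rho e).comp continuous_snd) continuous_const

lemma land_mono (e : E) {s t : ℝ} (h : s ≤ t) : land e s ⊆ land e t := by
  rintro x (hx | hx)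
  · exact Or.inl hx
  · exact Or.inr (lt_of_lt_of_le hx h)

lemma isPreconnected_land (e : E) {t : ℝ} (ht : 0 < t) :
    IsPreconnected (land e t) := by
  -- the upper part and the lower part
  have hup : IsPreconnected {x : ℝ × E | rho e x.2 < x.1} := by
    have : {x : ℝ × E | rho e x.2 < x.1} =
        (fun y : ℝ × E => (rho e y.2 + y.1, y.2)) '' ((Ioi (0:ℝ)) ×ˢ (univ : Set E)) := by
      ext ⟨a, b⟩
      simp only [mem_ofPred_eq, mem_image, mem_prod, mem_Ioi, mem_univ, and_true, Prod.mk.injEq,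
        Prod.exists]
      constructor
      · intro h
        exact ⟨a - rho e b, b, by linarith, by ring, rfl⟩
      · rintro ⟨x, y, hx, rfl, rfl⟩
        linarith
    rw [this]
    apply IsPreconnected.image
    · exact isPreconnected_Ioi.prod isPreconnected_univ
    · apply Continuous.continuousOn
      have := continuous_rho e
      fun_prop
  have hdn : IsPreconnected {x : ℝ × E | rho e x.2 < -x.1} := by
    have : {x : ℝ × E | rho e x.2 < -x.1} =
        (fun y : ℝ × E => (-y.1, y.2)) '' {x : ℝ × E | rho e x.2 < x.1} := by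
      ext ⟨a, b⟩
      simp only [mem_ofPred_eq, mem_image, Prod.mk.injEq, Prod.exists]
      constructor
      · intro h
        exact ⟨-a, b, h, by ring, rfl⟩
      · rintro ⟨x, y, hx, rfl, rfl⟩
        simpa using hx
    rw [this]
    apply hup.image
    fun_prop
  -- the union of the two parts with the tube around `m • e`
  have hm : ∀ m : ℤ, IsPreconnected (({x : ℝ × E | rho e x.2 < x.1} ∪
      ((univ : Set ℝ) ×ˢ ball ((m : ℝ) • e) t)) ∪ {x : ℝ × E | rho e x.2 < -x.1}) := by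
    intro m
    have htube : IsPreconnected ((univ : Set ℝ) ×ˢ ball ((m : ℝ) • e) t) :=
      isPreconnected_univ.prod (convex_ball _ _).isPreconnected
    have hr : rho e ((m : ℝ) • e) = 0 := by
      apply infDist_zero_of_mem; exact ⟨m, rfl⟩
    have h1 : IsPreconnected ({x : ℝ × E | rho e x.2 < x.1} ∪
        ((univ : Set ℝ) ×ˢ ball ((m : ℝ) • e) t)) := by
      apply IsPreconnected.union (1, (m : ℝ) • e) _ _ hup htube
      · simp [hr]
      · simp [ht]
    apply IsPreconnected.union (-1, (m : ℝ) • e) _ _ h1 hdn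
    · right; simp [ht]
    · simp [hr]
  have : land e t = ⋃ m : ℤ, (({x : ℝ × E | rho e x.2 < x.1} ∪
      ((univ : Set ℝ) ×ˢ ball ((m : ℝ) • e) t)) ∪ {x : ℝ × E | rho e x.2 < -x.1}) := by
    ext ⟨a, b⟩
    simp only [land, mem_union, mem_ofPred_eq, mem_iUnion, mem_prod, mem_univ, true_and, mem_ball]
    constructor
    · rintro (h | h)
      · rcases lt_abs.1 h with h | h
        · exact ⟨0, Or.inl (Or.inl h)⟩
        · exact ⟨0, Or.inr h⟩
      · rw [rho, infDist_lt_iff (Pt_nonempty e)] at h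
        obtain ⟨_, ⟨m, rfl⟩, hm⟩ := h
        exact ⟨m, Or.inl (Or.inr hm)⟩
    · rintro ⟨m, (h | h) | h⟩
      · left; exact lt_abs.2 (Or.inl h)
      · right
        rw [rho, infDist_lt_iff (Pt_nonempty e)]
        exact ⟨_, ⟨m, rfl⟩, h⟩
      · left; exact lt_abs.2 (Or.inr h)
  rw [this]
  apply isPreconnected_iUnion
  · refine ⟨(rho e 0 + 1, 0), ?_⟩
    rw [mem_iInter]
    intro m
    left; left
    simp
  · exact hm

lemma center_mem_land (e : E) {t : ℝ} (ht : 0 < t) (m : ℤ) :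
    ((0 : ℝ), (m : ℝ) • e) ∈ land e t := by
  right
  have hr : rho e ((m : ℝ) • e) = 0 := by
    apply infDist_zero_of_mem; exact ⟨m, rfl⟩
  simp [hr, ht]

/-- One digging step. -/
lemma step_exists (e : E) (Φ : (ℝ × E) ≃ₜ (ℝ × E)) {t : ℝ} (ht : 0 < t) (m : ℤ)
    {O : Set (ℝ × E)} (hO : IsOpen O) :
    ∃ (Φ' : (ℝ × E) ≃ₜ (ℝ × E)) (t' : ℝ), 0 < t' ∧ t' ≤ t / 2 ∧
      (∀ x, x ∉ land e t → Φ' x = Φ x) ∧
      ((∃ x ∈ land e t, Φ x ∈ O) → ∀ x ∈ closedBall ((0 : ℝ), (m : ℝ) • e) t', Φ' x ∈ O) := by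
  by_cases h : ∃ x ∈ land e t, Φ x ∈ O
  · obtain ⟨q, hq, hqO⟩ := h
    obtain ⟨Θ, h1, h2⟩ := exists_homeo (isOpen_land e t) (isPreconnected_land e ht)
      (center_mem_land e ht m) hq
    have hopen : IsOpen ((Θ.trans Φ) ⁻¹' O) := hO.preimage (Θ.trans Φ).continuous
    have hmem : ((0 : ℝ), (m : ℝ) • e) ∈ (Θ.trans Φ) ⁻¹' O := by
      simp [h1, hqO]
    obtain ⟨r, hr, hrO⟩ := Metric.isOpen_iff.1 hopen _ hmem
    refine ⟨Θ.trans Φ, min (t / 2) (r / 2), by positivity, min_le_left _ _, ?_, ?_⟩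
    · intro x hx
      simp [h2 x hx]
    · intro _ x hx
      apply hrO
      rw [mem_closedBall] at hx
      rw [mem_ball]
      have := min_le_right (t / 2) (r / 2)
      linarith
  · exact ⟨Φ, t / 2, by positivity, le_rfl, fun x _ => rfl, fun h' => absurd h' h⟩

/-- The states of the recursion. -/
def State (E : Type*) [NormedAddCommGroup E] [NormedSpace ℝ E] : Type _ :=
  {p : ((ℝ × E) ≃ₜ (ℝ × E)) × ℝ // 0 < p.2}

/-- All the data of the digging procedure. -/
lemma exists_digging (e : E) : ∃ (Φ : ℕ → (ℝ × E) ≃ₜ (ℝ × E)) (t : ℕ → ℝ),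
    (∀ k, 0 < t k) ∧ t 0 ≤ 1 / 4 ∧ (∀ k, t (k + 1) ≤ t k / 2) ∧
    (∀ k x, x ∉ land e (t k) → Φ (k + 1) x = Φ k x) ∧
    (∀ (m : ℤ) (q : ℝ × E) (A : Set (ℝ × E)), IsOpen A → q ∈ A →
      (∀ k, ∃ x ∈ closure (land e (t k)), Φ k x = q) → ∀ N : ℕ, ∃ k ≥ N,
      ∀ x ∈ closedBall ((0 : ℝ), (m : ℝ) • e) (t k), Φ k x ∈ A) := by
  classical
  haveI : ProperSpace (ℝ × E) := by
    haveI : ProperSpace E := FiniteDimensional.proper ℝ E
    infer_instance
  -- an enumeration of the tasks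
  let B := TopologicalSpace.countableBasis (ℝ × E)
  haveI : Nonempty B := by
    by_contra hne
    have hB := TopologicalSpace.isBasis_countableBasis (ℝ × E)
    obtain ⟨v, hv, -⟩ := hB.exists_subset_of_mem_open (mem_univ (0 : ℝ × E)) isOpen_univ
    exact hne ⟨⟨v, hv⟩⟩
  haveI : Countable B := (TopologicalSpace.countable_countableBasis (ℝ × E)).to_subtype
  obtain ⟨task, htask⟩ := exists_surjective_nat (ℤ × B)
  -- the step
  have hstep : ∀ (k : ℕ) (s : State E), ∃ s' : State E, s'.1.2 ≤ s.1.2 / 2 ∧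
      (∀ x, x ∉ land e s.1.2 → s'.1.1 x = s.1.1 x) ∧
      ((∃ x ∈ land e s.1.2, s.1.1 x ∈ ((task k.unpair.1).2 : Set (ℝ × E))) →
        ∀ x ∈ closedBall ((0 : ℝ), ((task k.unpair.1).1 : ℝ) • e) s'.1.2,
          s'.1.1 x ∈ ((task k.unpair.1).2 : Set (ℝ × E))) := by
    intro k s
    have hO : IsOpen ((task k.unpair.1).2 : Set (ℝ × E)) :=
      TopologicalSpace.isOpen_of_mem_countableBasis (task k.unpair.1).2.2
    obtain ⟨Φ', t', h0, h1, h2, h3⟩ := step_exists e s.1.1 s.2 (task k.unpair.1).1 hO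
    exact ⟨⟨(Φ', t'), h0⟩, h1, h2, h3⟩
  choose! nxt hn1 hn2 hn3 using hstep
  let seq : ℕ → State E := fun k =>
    Nat.rec (⟨(Homeomorph.refl _, 1 / 4), by norm_num⟩ : State E) (fun k s => nxt k s) k
  have hseq : ∀ k, seq (k + 1) = nxt k (seq k) := fun k => rfl
  refine ⟨fun k => (seq k).1.1, fun k => (seq k).1.2, fun k => (seq k).2, le_rfl, ?_, ?_, ?_⟩
  · intro k
    simp only [hseq]
    exact hn1 k (seq k)
  · intro k x hx
    simp only [hseq]
    exact hn2 k (seq k) x hx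
  · intro m q A hA hqA hq N
    have hB := TopologicalSpace.isBasis_countableBasis (ℝ × E)
    obtain ⟨O, hOB, hqO, hOA⟩ := hB.exists_subset_of_mem_open hqA hA
    obtain ⟨i, hi⟩ := htask (m, ⟨O, hOB⟩)
    set k := Nat.pair i N with hk
    have hkN : N ≤ k := Nat.right_le_pair i N
    have hku : k.unpair.1 = i := by simp [hk]
    have hOo : IsOpen O := TopologicalSpace.isOpen_of_mem_countableBasis hOB
    obtain ⟨x, hx, hxq⟩ := hq k
    have hpre : ∃ x ∈ land e (seq k).1.2, (seq k).1.1 x ∈ O := by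
      have h1 : x ∈ (seq k).1.1 ⁻¹' O := by
        change (seq k).1.1 x ∈ O
        rw [hxq]; exact hqO
      obtain ⟨y, hy1, hy2⟩ := mem_closure_iff.1 hx _ (hOo.preimage (seq k).1.1.continuous) h1
      exact ⟨y, hy2, hy1⟩
    have h3 := hn3 k (seq k)
    rw [hku, hi] at h3
    refine ⟨k + 1, by omega, fun y hy => hOA ?_⟩
    exact h3 hpre y hy

end ConnBij
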