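import Mathlib

/-!
# Connected bijections of `ℝⁿ` (MP_8f6e3d_gt), part 4: cardinal arithmetic
-/

open Set Cardinal

namespace ConnBij

/-- The rationals as an additive subgroup of `ℝ`. -/
noncomputable def QQ : AddSubgroup ℝ := (Rat.castHom ℝ).toAddMonoidHom.range

lemma mem_QQ (q : ℚ) : (q : ℝ) ∈ QQ := ⟨q, rfl⟩

lemma card_QQ : #QQ ≤ ℵ₀ := by
  have : Function.Surjective (fun q : ℚ => (⟨(q : ℝ), mem_QQ q⟩ : QQ)) := by
    rintro ⟨_, q, rfl⟩
    exact ⟨q, rfl⟩
  have h := mk_le_of_surjective this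
  rwa [mk_eq_aleph0 ℚ] at h

lemma card_quot : #(ℝ ⧸ QQ) = 𝔠 := by
  have h1 : #(ℝ ⧸ QQ) ≤ 𝔠 := by
    have := mk_le_of_surjective (QuotientAddGroup.mk_surjective (s := QQ))
    rwa [mk_real] at this
  apply le_antisymm h1
  have h2 : #ℝ = #(ℝ ⧸ QQ) * #QQ := by
    rw [mk_congr (AddSubgroup.addGroupEquivQuotientProdAddSubgroup (s := QQ)), mk_prod,
      lift_id, lift_id]
  rw [mk_real] at h2
  by_contra hlt
  rw [not_le] at hlt
  have h3 : #(ℝ ⧸ QQ) * #QQ ≤ max (max (#(ℝ ⧸ QQ)) (#QQ)) ℵ₀ := mul_le_max _ _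
  have h4 : max (max (#(ℝ ⧸ QQ)) (#QQ)) ℵ₀ < 𝔠 := by
    apply max_lt (max_lt hlt _) aleph0_lt_continuum
    exact lt_of_le_of_lt card_QQ aleph0_lt_continuum
  rw [← h2] at h3
  exact absurd h3 (not_le.2 h4)

/-- A tagging of the reals by natural numbers, all tags having continuum many points in each
interval. -/
lemma exists_tag : ∃ τ : ℝ → ℕ, ∀ (a b : ℝ), a < b → ∀ j : ℕ,
    𝔠 ≤ #(↥(Ioo a b ∩ τ ⁻¹' {j})) := by
  have h1 : #(ℝ ⧸ QQ) = #(ℕ × ℝ) := by
    rw [card_quot, mk_prod]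
    simp [mk_real]
  obtain ⟨eqv⟩ := Cardinal.eq.1 h1
  refine ⟨fun x => (eqv (QuotientAddGroup.mk x)).1, fun a b hab j => ?_⟩
  have hex : ∀ y : ℝ, ∃ x : ℝ, x ∈ Ioo a b ∧ eqv (QuotientAddGroup.mk x) = (j, y) := by
    intro y
    obtain ⟨r, hr⟩ := QuotientAddGroup.mk_surjective (s := QQ) (eqv.symm (j, y))
    obtain ⟨q, hq1, hq2⟩ := exists_rat_btwn (show a - r < b - r by linarith)
    refine ⟨r + q, ⟨by linarith, by linarith⟩, ?_⟩
    have : (QuotientAddGroup.mk (r + q) : ℝ ⧸ QQ) = QuotientAddGroup.mk r := by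
      rw [QuotientAddGroup.mk_add_of_mem _ (mem_QQ q)]
    rw [this, hr]
    simp
  choose x hx1 hx2 using hex
  have hinj : Function.Injective (fun y : ℝ =>
      (⟨x y, hx1 y, by simp [hx2 y]⟩ :
        ↥(Ioo a b ∩ (fun x => (eqv (QuotientAddGroup.mk x)).1) ⁻¹' {j}))) := by
    intro y y' h
    have h' : x y = x y' := congrArg Subtype.val h
    have := hx2 y
    rw [h', hx2 y'] at this
    exact (Prod.mk.inj this).2.symm
  have := mk_le_of_injective hinj
  rwa [mk_real] at this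

/-- Labels on `ℝ × ℤ`: every label has continuum many points, every interval on every line
contains a full label class, and some label class is not order-connected. -/
lemma exists_labels : ∃ T : ℝ × ℤ → Option ℤ, (∀ o, 𝔠 ≤ #(↥(T ⁻¹' {o}))) ∧
    (∀ (m : ℤ) (a b : ℝ), a < b → ∃ i : ℤ, ∀ p, T p = some i → p.2 = m ∧ p.1 ∈ Ioo a b) ∧
    (∃ i m : ℤ, (∀ p, T p = some i → p.2 = m) ∧ ∃ x y z : ℝ, x < y ∧ y < z ∧
      T (x, m) = some i ∧ T (y, m) ≠ some i ∧ T (z, m) = some i) := by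
  classical
  obtain ⟨τ, hτ⟩ := exists_tag
  obtain ⟨s, hs⟩ := exists_surjective_nat (ℚ × ℕ)
  let lo : ℕ → ℝ := fun j => ((s j).1 : ℝ) - 1 / (((s j).2 : ℝ) + 1)
  let hi : ℕ → ℝ := fun j => ((s j).1 : ℝ) + 1 / (((s j).2 : ℝ) + 1)
  have hlohi : ∀ j, lo j < hi j := by
    intro j
    have : (0:ℝ) < 1 / (((s j).2 : ℝ) + 1) := by positivity
    simp only [lo, hi]
    linarith
  let ι : ℕ × ℤ ≃ ℤ := Denumerable.equiv₂ (ℕ × ℤ) ℤ
  let T : ℝ × ℤ → Option ℤ := fun p =>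
    if τ p.1 ≠ 0 ∧ p.1 ∈ Ioo (lo (τ p.1 - 1)) (hi (τ p.1 - 1)) then
      some (ι (τ p.1 - 1, p.2)) else none
  have hTsome : ∀ p j m, T p = some (ι (j, m)) ↔
      τ p.1 = j + 1 ∧ p.1 ∈ Ioo (lo j) (hi j) ∧ p.2 = m := by
    intro p j m
    simp only [T]
    constructor
    · intro h
      split_ifs at h with h1
      have h2 := ι.injective (Option.some.inj h)
      rw [Prod.mk.injEq] at h2
      have h3 : τ p.1 = j + 1 := by omega
      refine ⟨h3, ?_, h2.2⟩
      rw [← h2.1]; exact h1.2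
    · rintro ⟨h1, h2, h3⟩
      have h4 : τ p.1 - 1 = j := by omega
      rw [h4, if_pos ⟨by omega, h2⟩, h3]
  have hT0 : ∀ p, τ p.1 = 0 → T p = none := by
    intro p hp
    simp only [T]
    rw [if_neg]
    intro h
    exact h.1 hp
  refine ⟨T, ?_, ?_, ?_⟩
  · intro o
    cases o with
    | none =>
      have h1 := hτ 0 1 one_pos 0
      refine h1.trans ?_
      have hinj : Function.Injective (fun x : ↥(Ioo (0:ℝ) 1 ∩ τ ⁻¹' {0}) =>
          (⟨((x : ℝ), (0 : ℤ)), hT0 _ x.2.2⟩ : ↥(T ⁻¹' {none}))) := by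
        intro x y h
        have := congrArg Subtype.val h
        exact Subtype.ext (Prod.mk.inj this).1
      exact mk_le_of_injective hinj
    | some i =>
      obtain ⟨⟨j, m⟩, rfl⟩ := ι.surjective i
      have h1 := hτ (lo j) (hi j) (hlohi j) (j + 1)
      refine h1.trans ?_
      have hinj : Function.Injective (fun x : ↥(Ioo (lo j) (hi j) ∩ τ ⁻¹' {j + 1}) =>
          (⟨((x : ℝ), m), (hTsome _ j m).2 ⟨x.2.2, x.2.1, rfl⟩⟩ :
            ↥(T ⁻¹' {some (ι (j, m))}))) := by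
        intro x y h
        have := congrArg Subtype.val h
        exact Subtype.ext (Prod.mk.inj this).1
      exact mk_le_of_injective hinj
  · intro m a b hab
    obtain ⟨c, hc1, hc2⟩ := exists_rat_btwn hab
    obtain ⟨n, hn⟩ := exists_nat_one_div_lt (show (0:ℝ) < min (c - a) (b - c) by
      apply lt_min <;> linarith)
    obtain ⟨j, hj⟩ := hs (c, n)
    refine ⟨ι (j, m), fun p hp => ?_⟩
    obtain ⟨-, h2, h3⟩ := (hTsome p j m).1 hp
    refine ⟨h3, ?_⟩
    have h4 := lt_of_lt_of_le hn (min_le_left _ _)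
    have h5 := lt_of_lt_of_le hn (min_le_right _ _)
    simp only [lo, hi, hj] at h2
    exact ⟨by linarith [h2.1], by linarith [h2.2]⟩
  · have hne : ∀ a b : ℝ, a < b → ∀ j, ∃ x ∈ Ioo a b, τ x = j := by
      intro a b hab j
      have h1 := hτ a b hab j
      have h2 : #(↥(Ioo a b ∩ τ ⁻¹' {j})) ≠ 0 := by
        intro h0
        rw [h0] at h1
        exact absurd h1 (not_le.2 continuum_pos)
      obtain ⟨x, hx⟩ := mk_ne_zero_iff.1 h2
      exact ⟨x, hx.1, hx.2⟩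
    obtain ⟨x, hx, hx1⟩ := hne (lo 0) (hi 0) (hlohi 0) 1
    obtain ⟨y, hy, hy1⟩ := hne x (hi 0) hx.2 0
    obtain ⟨z, hz, hz1⟩ := hne y (hi 0) hy.2 1
    refine ⟨ι (0, 0), 0, fun p hp => ((hTsome p 0 0).1 hp).2.2, x, y, z, hy.1, hz.1, ?_, ?_, ?_⟩
    · exact (hTsome _ 0 0).2 ⟨hx1, hx, rfl⟩
    · rw [hT0 _ hy1]
      simp
    · exact (hTsome _ 0 0).2 ⟨hz1, ⟨hx.1.trans (hy.1.trans hz.1), hz.2⟩, rfl⟩

/-- The label preserving bijection. -/
lemma exists_bij {Y : Type} (hY : #Y ≤ 𝔠) (G : Set Y) (M : ℤ → Set Y) (hMG : ∀ i, M i ⊆ G)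
    (hdisj : ∀ i j, i ≠ j → Disjoint (M i) (M j)) (hcard : ∀ i, 𝔠 ≤ #(M i))
    (hrest : 𝔠 ≤ #(↥(G \ ⋃ i, M i))) (T : ℝ × ℤ → Option ℤ)
    (hT : ∀ o, 𝔠 ≤ #(↥(T ⁻¹' {o}))) :
    ∃ ε : ℝ × ℤ ≃ G, ∀ p i, ((ε p : Y) ∈ M i ↔ T p = some i) := by
  classical
  -- labels on `G`
  let L : G → Option ℤ := fun y => if h : ∃ i, (y : Y) ∈ M i then some h.choose else none
  have hL : ∀ y i, L y = some i ↔ (y : Y) ∈ M i := by
    intro y i
    simp only [L]
    constructor
    · intro h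
      split_ifs at h with h1
      have h2 := h1.choose_spec
      rwa [Option.some.inj h] at h2
    · intro h
      have h1 : ∃ i, (y : Y) ∈ M i := ⟨i, h⟩
      rw [dif_pos h1]
      congr 1
      by_contra hne
      exact Set.disjoint_left.1 (hdisj _ _ hne) h1.choose_spec h
  have hL0 : ∀ y, L y = none ↔ ∀ i, (y : Y) ∉ M i := by
    intro y
    rw [Option.eq_none_iff_forall_ne_some]
    constructor
    · intro h i hi
      exact h i ((hL y i).2 hi)
    · intro h i hi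
      exact h i ((hL y i).1 hi)
  have hGc : #G ≤ 𝔠 := (mk_set_le G).trans hY
  have hcard2 : ∀ o, #{y // L y = o} = 𝔠 := by
    intro o
    apply le_antisymm ((mk_subtype_le _).trans hGc)
    cases o with
    | none =>
      refine hrest.trans ?_
      have hinj : Function.Injective (fun x : ↥(G \ ⋃ i, M i) =>
          (⟨⟨x, x.2.1⟩, (hL0 _).2 (fun i hi => x.2.2 (mem_iUnion.2 ⟨i, hi⟩))⟩ :
            {y // L y = none})) := by
        intro x y h
        have h1 := congrArg Subtype.val h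
        exact Subtype.ext (congrArg (fun z : G => (z : Y)) h1)
      exact mk_le_of_injective hinj
    | some i =>
      refine (hcard i).trans ?_
      have hinj : Function.Injective (fun x : ↥(M i) =>
          (⟨⟨x, hMG i x.2⟩, (hL _ i).2 x.2⟩ : {y // L y = some i})) := by
        intro x y h
        have h1 := congrArg Subtype.val h
        exact Subtype.ext (congrArg (fun z : G => (z : Y)) h1)
      exact mk_le_of_injective hinj
  have hcard1 : ∀ o, #{p // T p = o} = 𝔠 := by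
    intro o
    apply le_antisymm
    · refine (mk_subtype_le _).trans ?_
      rw [mk_prod]
      simp [mk_real]
    · exact hT o
  have heq : ∀ o, Nonempty ({p // T p = o} ≃ {y // L y = o}) := by
    intro o
    exact Cardinal.eq.1 ((hcard1 o).trans (hcard2 o).symm)
  let φ : ∀ o, {p // T p = o} ≃ {y // L y = o} := fun o => (heq o).some
  let ε : ℝ × ℤ ≃ G :=
    (Equiv.sigmaFiberEquiv T).symm.trans ((Equiv.sigmaCongrRight φ).trans (Equiv.sigmaFiberEquiv L))
  have hε : ∀ p, L (ε p) = T p := by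
    intro p
    have h1 : ε p = ((φ (T p)) ⟨p, rfl⟩).1 := rfl
    rw [h1]
    exact ((φ (T p)) ⟨p, rfl⟩).2
  refine ⟨ε, fun p i => ?_⟩
  rw [← hL, hε]

end ConnBij
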