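import Pool.Agent.Lib_helper50.ConnBij.Canal

/-!
# Connected bijections of `ℝⁿ` (MP_8f6e3d_gt), part 3: the limit embedding and the walls
-/

open Set Metric Topology

namespace ConnBij

variable {E : Type*} [NormedAddCommGroup E] [NormedSpace ℝ E] [FiniteDimensional ℝ E]

/-- The data of the digging procedure. -/
structure Dig (e : E) where
  Φ : ℕ → (ℝ × E) ≃ₜ (ℝ × E)
  t : ℕ → ℝ
  he : ‖e‖ = 1
  tpos : ∀ k, 0 < t k
  t0 : t 0 ≤ 1 / 4
  thalf : ∀ k, t (k + 1) ≤ t k / 2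
  stab : ∀ k x, x ∉ land e (t k) → Φ (k + 1) x = Φ k x
  shell : ∀ (m : ℤ) (q : ℝ × E) (A : Set (ℝ × E)), IsOpen A → q ∈ A →
      (∀ k, ∃ x ∈ closure (land e (t k)), Φ k x = q) → ∀ N : ℕ, ∃ k ≥ N,
      ∀ x ∈ closedBall ((0 : ℝ), (m : ℝ) • e) (t k), Φ k x ∈ A

lemma exists_dig {e : E} (he : ‖e‖ = 1) : Nonempty (Dig e) := by
  obtain ⟨Φ, t, h1, h2, h3, h4, h5⟩ := exists_digging e
  exact ⟨⟨Φ, t, he, h1, h2, h3, h4, h5⟩⟩

namespace Dig

variable {e : E} (d : Dig e)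

lemma t_succ_le (k : ℕ) : d.t (k + 1) ≤ d.t k := by
  have h1 := d.thalf k
  have h2 := d.tpos k
  linarith

lemma t_anti : Antitone d.t := antitone_nat_of_succ_le d.t_succ_le

lemma t_le (k : ℕ) : d.t k ≤ 1 / 4 := (d.t_anti (Nat.zero_le k)).trans d.t0

lemma t_le_pow (k : ℕ) : d.t k ≤ (1 / 2) ^ k := by
  induction k with
  | zero => have := d.t0; norm_num; linarith
  | succ k ih =>
    have := d.thalf k
    rw [pow_succ]
    linarith

lemma exists_t_lt {δ : ℝ} (hδ : 0 < δ) : ∃ N, ∀ k ≥ N, d.t k < δ := by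
  obtain ⟨N, hN⟩ := exists_pow_lt_of_lt_one hδ (by norm_num : (1 / 2 : ℝ) < 1)
  exact ⟨N, fun k hk => lt_of_le_of_lt (d.t_anti hk) (lt_of_le_of_lt (d.t_le_pow N) hN)⟩

lemma stab' {k l : ℕ} (hkl : k ≤ l) {x : ℝ × E} (hx : x ∉ land e (d.t k)) :
    d.Φ l x = d.Φ k x := by
  induction l, hkl using Nat.le_induction with
  | base => rfl
  | succ l hkl ih =>
    rw [d.stab l x (fun h => hx (land_mono e (d.t_anti hkl) h)), ih]

open Classical in
/-- The index from which the digging procedure is stationary at `x`. -/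
noncomputable def idx (x : ℝ × E) : ℕ :=
  if h : ∃ k, d.t k ≤ rho e x.2 then Nat.find h else 0

/-- The limit embedding. -/
noncomputable def Hl (x : ℝ × E) : ℝ × E := d.Φ (d.idx x) x

lemma Hl_eq {x : ℝ × E} {k : ℕ} (h1 : |x.1| ≤ rho e x.2) (h2 : d.t k ≤ rho e x.2) :
    d.Hl x = d.Φ k x := by
  classical
  have hex : ∃ k, d.t k ≤ rho e x.2 := ⟨k, h2⟩
  have hidx : d.idx x = Nat.find hex := by
    unfold idx
    rw [dif_pos hex]
  have hle : Nat.find hex ≤ k := Nat.find_min' hex h2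
  have hsp : d.t (Nat.find hex) ≤ rho e x.2 := Nat.find_spec hex
  have hx : x ∉ land e (d.t (Nat.find hex)) := by
    rintro (h | h)
    · exact absurd h1 (not_le.2 h)
    · exact absurd hsp (not_le.2 h)
  rw [Hl, hidx]
  exact (d.stab' hle hx).symm

lemma exists_le_rho {v : E} (hv : 0 < rho e v) : ∃ k, d.t k < rho e v := by
  obtain ⟨N, hN⟩ := d.exists_t_lt hv
  exact ⟨N, hN N le_rfl⟩

lemma Hl_inj {x y : ℝ × E} (hx0 : 0 < rho e x.2) (hx : |x.1| ≤ rho e x.2)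
    (hy0 : 0 < rho e y.2) (hy : |y.1| ≤ rho e y.2) (h : d.Hl x = d.Hl y) : x = y := by
  obtain ⟨k, hk⟩ := d.exists_le_rho hx0
  obtain ⟨l, hl⟩ := d.exists_le_rho hy0
  have h1 := d.Hl_eq (k := max k l) hx ((d.t_anti (le_max_left k l)).trans hk.le)
  have h2 := d.Hl_eq (k := max k l) hy ((d.t_anti (le_max_right k l)).trans hl.le)
  rw [h1, h2] at h
  exact (d.Φ _).injective h

/-- `Hl` composed with a continuous map into `{|x| ≤ ρ}` is continuous where `ρ > 0`. -/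
lemma continuousAt_Hl_comp {Z : Type*} [TopologicalSpace Z] {φ : Z → ℝ × E} {z : Z}
    (hφ : ContinuousAt φ z) (hz : 0 < rho e (φ z).2)
    (hle : ∀ᶠ w in 𝓝 z, |(φ w).1| ≤ rho e (φ w).2) : ContinuousAt (fun w => d.Hl (φ w)) z := by
  obtain ⟨k, hk⟩ := d.exists_le_rho hz
  have h1 : ContinuousAt (fun w => d.Φ k (φ w)) z := (d.Φ k).continuous.continuousAt.comp hφ
  have h2 : ContinuousAt (fun w => rho e (φ w).2) z := by
    have h0 : Continuous (fun x : ℝ × E => rho e x.2) := (continuous_rho e).comp continuous_snd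
    exact h0.continuousAt.comp hφ
  have h3 : ∀ᶠ w in 𝓝 z, d.t k < rho e (φ w).2 := h2.eventually (lt_mem_nhds hk)
  apply h1.congr
  filter_upwards [hle, h3] with w hw1 hw2
  exact (d.Hl_eq hw1 hw2.le).symm

end Dig

/-- The compression of `ℝ × E` into `{|x| < ρ}`. -/
noncomputable def jj (e : E) (x : ℝ × E) : ℝ × E := (rho e x.2 * (x.1 / (1 + |x.1|)), x.2)

lemma abs_sq_lt (s : ℝ) : |s / (1 + |s|)| < 1 := by
  have h : 0 < 1 + |s| := by positivity
  rw [abs_div, abs_of_pos h, div_lt_one h]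
  linarith [abs_nonneg s]

lemma sq_inj {s s' : ℝ} (h : s / (1 + |s|) = s' / (1 + |s'|)) : s = s' := by
  have h1 : 0 < 1 + |s| := by positivity
  have h2 : 0 < 1 + |s'| := by positivity
  rw [div_eq_div_iff h1.ne' h2.ne'] at h
  rcases abs_cases s with ⟨a1, a2⟩ | ⟨a1, a2⟩ <;> rcases abs_cases s' with ⟨b1, b2⟩ | ⟨b1, b2⟩ <;>
    rw [a1, b1] at h <;> nlinarith

lemma sq_surj {z : ℝ} (h : |z| < 1) : ∃ s : ℝ, s / (1 + |s|) = z := by
  have h1 : 0 < 1 - |z| := by linarith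
  refine ⟨z / (1 - |z|), ?_⟩
  rw [abs_div, abs_of_pos h1]
  field_simp
  rcases abs_cases z with ⟨a1, a2⟩ | ⟨a1, a2⟩ <;> rw [a1] <;> ring

lemma jj_abs_lt {e : E} {x : ℝ × E} (hx : 0 < rho e x.2) :
    |(jj e x).1| < rho e (jj e x).2 := by
  simp only [jj]
  rw [abs_mul, abs_of_pos hx]
  have := abs_sq_lt x.1
  nlinarith

lemma jj_abs_le {e : E} (x : ℝ × E) : |(jj e x).1| ≤ rho e (jj e x).2 := by
  simp only [jj]
  rw [abs_mul, abs_of_nonneg (rho_nonneg e x.2)]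
  have := abs_sq_lt x.1
  have := rho_nonneg e x.2
  nlinarith

lemma continuous_jj (e : E) : Continuous (jj e) := by
  have h1 := continuous_rho e
  have h2 : Continuous (fun x : ℝ × E => x.1 / (1 + |x.1|)) := by
    apply Continuous.div continuous_fst (by fun_prop)
    intro x
    positivity
  unfold jj
  fun_prop

lemma jj_inj {e : E} {x y : ℝ × E} (hx : 0 < rho e x.2) (h : jj e x = jj e y) : x = y := by
  simp only [jj, Prod.mk.injEq] at h
  obtain ⟨h1, h2⟩ := h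
  rw [← h2] at h1
  have h3 := mul_left_cancel₀ hx.ne' h1
  exact Prod.ext (sq_inj h3) h2

namespace Dig

variable {e : E} (d : Dig e)

/-- The map on the complement of the lines. -/
noncomputable def fU (x : ℝ × E) : ℝ × E := d.Hl (jj e x)

/-- The remaining land `G`. -/
def G : Set (ℝ × E) := (d.fU '' {x | 0 < rho e x.2})ᶜ

lemma fU_continuousAt {x : ℝ × E} (hx : 0 < rho e x.2) : ContinuousAt d.fU x :=
  d.continuousAt_Hl_comp (continuous_jj e).continuousAt hx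
    (Filter.Eventually.of_forall (fun w => jj_abs_le w))

lemma fU_inj {x y : ℝ × E} (hx : 0 < rho e x.2) (hy : 0 < rho e y.2) (h : d.fU x = d.fU y) :
    x = y :=
  jj_inj hx (d.Hl_inj hx (jj_abs_le x) hy (jj_abs_le y) h)

/-- A point of the remaining land is in the closure of the land at each stage. -/
lemma G_land {q : ℝ × E} (hq : q ∈ d.G) (k : ℕ) :
    ∃ x ∈ closure (land e (d.t k)), d.Φ k x = q := by
  refine ⟨(d.Φ k).symm q, ?_, by simp⟩
  set y := (d.Φ k).symm q with hy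
  have hyq : d.Φ k y = q := by simp [hy]
  by_contra hcl
  have hyl : y ∉ land e (d.t k) := fun h => hcl (subset_closure h)
  have h1 : |y.1| ≤ rho e y.2 := by
    by_contra h; exact hyl (Or.inl (not_le.1 h))
  have h2 : d.t k ≤ rho e y.2 := by
    by_contra h; exact hyl (Or.inr (not_le.1 h))
  have hpos : 0 < rho e y.2 := lt_of_lt_of_le (d.tpos k) h2
  rcases h1.lt_or_eq with h3 | h3
  · -- then `q` is in the canals
    apply hq
    obtain ⟨s, hs⟩ := sq_surj (z := y.1 / rho e y.2) (by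
      rw [abs_div, abs_of_pos hpos, div_lt_one hpos]; exact h3)
    refine ⟨(s, y.2), hpos, ?_⟩
    have hj : jj e (s, y.2) = y := by
      simp only [jj]
      rw [hs]
      apply Prod.ext
      · simp only
        field_simp
      · rfl
    rw [fU, hj, d.Hl_eq h1 h2, hyq]
  · -- then `y` is a limit of points of the land
    apply hcl
    rw [mem_closure_iff_seq_limit]
    refine ⟨fun n : ℕ => ((1 + 1 / ((n : ℝ) + 1)) * y.1, y.2), ?_, ?_⟩
    · intro n
      left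
      simp only [mem_ofPred_eq]
      rw [abs_mul, h3]
      have : (0:ℝ) < 1 / ((n : ℝ) + 1) := by positivity
      rw [abs_of_pos (by linarith)]
      nlinarith
    · have h4 : Filter.Tendsto (fun n : ℕ => (1 + 1 / ((n : ℝ) + 1)) * y.1) Filter.atTop
          (𝓝 ((1 + 0) * y.1)) :=
        (tendsto_const_nhds.add tendsto_one_div_add_atTop_nhds_zero_nat).mul_const _
      rw [add_zero, one_mul] at h4
      have : Filter.Tendsto (fun n : ℕ => ((1 + 1 / ((n : ℝ) + 1)) * y.1, y.2)) Filter.atTop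
          (𝓝 (y.1, y.2)) := h4.prodMk_nhds tendsto_const_nhds
      simpa using this

lemma G_shell {q : ℝ × E} (hq : q ∈ d.G) (m : ℤ) {A : Set (ℝ × E)} (hA : IsOpen A)
    (hqA : q ∈ A) (N : ℕ) : ∃ k ≥ N,
      ∀ x ∈ closedBall ((0 : ℝ), (m : ℝ) • e) (d.t k), d.Φ k x ∈ A :=
  d.shell m q A hA hqA (d.G_land hq) N

/-- Points of `{|x| ≤ ρ}` at distance exactly `t k` from a line are sent to `A`. -/
lemma Hl_slice {A : Set (ℝ × E)} {m : ℤ} {k : ℕ}
    (hk : ∀ x ∈ closedBall ((0 : ℝ), (m : ℝ) • e) (d.t k), d.Φ k x ∈ A) {x : ℝ × E}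
    (h1 : |x.1| ≤ rho e x.2) (h2 : dist x.2 ((m : ℝ) • e) = d.t k) : d.Hl x ∈ A := by
  have hr : rho e x.2 = d.t k := by
    rw [rho_eq_dist d.he x.2 m (by rw [h2]; linarith [d.t_le k]), h2]
  rw [d.Hl_eq h1 hr.ge]
  apply hk
  rw [mem_closedBall, Prod.dist_eq]
  apply max_le
  · rw [Real.dist_eq]
    simp only [sub_zero]
    rw [← hr]; exact h1
  · exact h2.le

/-- The wall points. -/
noncomputable def wall (ε : ℝ) (m : ℤ) (τ : ℝ) : ℝ × E :=
  d.Hl (ε * τ, ((m : ℝ) + τ) • e)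

lemma rho_wall (he : ‖e‖ = 1) (m : ℤ) {τ : ℝ} (h0 : 0 ≤ τ) (h1 : τ ≤ 1 / 2) :
    rho e (((m : ℝ) + τ) • e) = τ := by
  have : dist (((m : ℝ) + τ) • e) ((m : ℝ) • e) = τ := by
    rw [dist_eq_norm, ← sub_smul, norm_smul, he, mul_one, add_sub_cancel_left, Real.norm_eq_abs,
      abs_of_nonneg h0]
  rw [rho_eq_dist he _ m (by rw [this]; exact h1), this]

lemma abs_eps {ε : ℝ} (hε : ε = 1 ∨ ε = -1) {τ : ℝ} (h0 : 0 ≤ τ) : |ε * τ| = τ := by
  rcases hε with rfl | rfl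
  · rw [one_mul, abs_of_nonneg h0]
  · rw [neg_one_mul, abs_neg, abs_of_nonneg h0]

lemma wall_mem_G {ε : ℝ} (hε : ε = 1 ∨ ε = -1) (m : ℤ) {τ : ℝ} (hτ : τ ∈ Ioo (0:ℝ) (1 / 2)) :
    d.wall ε m τ ∈ d.G := by
  rintro ⟨x, hx, hxw⟩
  have hr := rho_wall d.he m hτ.1.le hτ.2.le
  have h1 := d.Hl_inj (x := jj e x) (y := (ε * τ, ((m : ℝ) + τ) • e)) hx (jj_abs_le x)
    (by simp only; rw [hr]; exact hτ.1) (by simp only; rw [hr, abs_eps hε hτ.1.le]) hxw
  have h2 := jj_abs_lt hx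
  rw [h1] at h2
  simp only at h2
  rw [hr, abs_eps hε hτ.1.le] at h2
  exact lt_irrefl _ h2

lemma wall_inj {ε ε' : ℝ} (hε : ε = 1 ∨ ε = -1) (hε' : ε' = 1 ∨ ε' = -1) {m m' : ℤ} {τ τ' : ℝ}
    (hτ : τ ∈ Ioo (0:ℝ) (1 / 2)) (hτ' : τ' ∈ Ioo (0:ℝ) (1 / 2))
    (h : d.wall ε m τ = d.wall ε' m' τ') : ε = ε' ∧ m = m' ∧ τ = τ' := by
  have hr := rho_wall d.he m hτ.1.le hτ.2.le
  have hr' := rho_wall d.he m' hτ'.1.le hτ'.2.le
  have h1 := d.Hl_inj (x := (ε * τ, ((m : ℝ) + τ) • e)) (y := (ε' * τ', ((m' : ℝ) + τ') • e))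
    (by simp only; rw [hr]; exact hτ.1) (by simp only; rw [hr, abs_eps hε hτ.1.le])
    (by simp only; rw [hr']; exact hτ'.1) (by simp only; rw [hr', abs_eps hε' hτ'.1.le]) h
  rw [Prod.mk.injEq] at h1
  obtain ⟨h2, h3⟩ := h1
  have hττ : τ = τ' := by
    rw [h3, hr'] at hr
    exact hr.symm
  subst hττ
  have h4 : ε = ε' := mul_right_cancel₀ hτ.1.ne' h2
  refine ⟨h4, ?_, rfl⟩
  have h5 : ((m : ℝ) + τ - (m' + τ)) • e = 0 := by
    rw [sub_smul, h3, sub_self]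
  have he0 : e ≠ 0 := by
    intro h; have := d.he; rw [h, norm_zero] at this; exact zero_ne_one this
  have h6 : (m : ℝ) + τ - (m' + τ) = 0 := by
    rcases smul_eq_zero.1 h5 with h | h
    · exact h
    · exact absurd h he0
  have h7 : (m : ℝ) = m' := by linarith
  exact_mod_cast h7

lemma wall_continuousOn {ε : ℝ} (hε : ε = 1 ∨ ε = -1) (m : ℤ) :
    ContinuousOn (d.wall ε m) (Ioo (0:ℝ) (1 / 2)) := by
  intro τ hτ
  apply ContinuousAt.continuousWithinAt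
  apply d.continuousAt_Hl_comp (φ := fun τ : ℝ => (ε * τ, ((m : ℝ) + τ) • e))
  · apply Continuous.continuousAt
    fun_prop
  · simp only
    rw [rho_wall d.he m hτ.1.le hτ.2.le]
    exact hτ.1
  · filter_upwards [Ioo_mem_nhds hτ.1 hτ.2] with σ hσ
    rw [rho_wall d.he m hσ.1.le hσ.2.le, abs_eps hε hσ.1.le]

lemma wall_preconnected {ε : ℝ} (hε : ε = 1 ∨ ε = -1) (m : ℤ) :
    IsPreconnected (d.wall ε m '' Ioo (0:ℝ) (1 / 2)) :=
  isPreconnected_Ioo.image _ (d.wall_continuousOn hε m)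

lemma G_subset_closure_wall {ε : ℝ} (hε : ε = 1 ∨ ε = -1) (m : ℤ) :
    d.G ⊆ closure (d.wall ε m '' Ioo (0:ℝ) (1 / 2)) := by
  intro q hq
  rw [_root_.mem_closure_iff]
  intro A hA hqA
  obtain ⟨k, -, hk⟩ := d.G_shell hq m hA hqA 0
  have h1 : d.t k ∈ Ioo (0:ℝ) (1 / 2) := ⟨d.tpos k, by linarith [d.t_le k]⟩
  refine ⟨d.wall ε m (d.t k), ?_, ⟨_, h1, rfl⟩⟩
  apply d.Hl_slice hk
  · simp only
    rw [rho_wall d.he m h1.1.le h1.2.le, abs_eps hε h1.1.le]
  · simp only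
    rw [dist_eq_norm, ← sub_smul, norm_smul, d.he, mul_one, add_sub_cancel_left,
      Real.norm_eq_abs, abs_of_pos h1.1]

end Dig

end ConnBij
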