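import Pool.Agent.Lib_helper50.ConnBij.Limit
import Pool.Agent.Lib_helper50.ConnBij.Card

/-!
# Connected bijections of `ℝⁿ` (MP_8f6e3d_gt), part 5: the bijection
-/

open Set Metric Topology Cardinal

namespace ConnBij

variable {E : Type} [NormedAddCommGroup E] [NormedSpace ℝ E] [FiniteDimensional ℝ E]

lemma smul_inj {e : E} (he : ‖e‖ = 1) {m m' : ℤ} (h : (m : ℝ) • e = (m' : ℝ) • e) : m = m' := by
  by_contra hne
  have := dist_lattice he m m' hne
  rw [h, dist_self] at this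
  linarith

open Classical in
/-- The bijection of `ℝ × E`. -/
noncomputable def bij {e : E} (d : Dig e) (ε : ℝ × ℤ ≃ d.G) (x : ℝ × E) : ℝ × E :=
  if h : ∃ m : ℤ, x.2 = (m : ℝ) • e then (ε (x.1, h.choose) : ℝ × E) else d.fU x

lemma bij_line {e : E} (d : Dig e) (ε : ℝ × ℤ ≃ d.G) (s : ℝ) (m : ℤ) :
    bij d ε (s, (m : ℝ) • e) = ε (s, m) := by
  have h : ∃ m' : ℤ, (m : ℝ) • e = (m' : ℝ) • e := ⟨m, rfl⟩
  have h1 : h.choose = m := (smul_inj d.he h.choose_spec).symm
  unfold bij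
  rw [dif_pos h, h1]

lemma bij_off {e : E} (d : Dig e) (ε : ℝ × ℤ ≃ d.G) {x : ℝ × E} (hx : 0 < rho e x.2) :
    bij d ε x = d.fU x := by
  unfold bij
  rw [dif_neg]
  rw [← rho_eq_zero d.he]
  exact hx.ne'

lemma cases_rho {e : E} (d : Dig e) (x : ℝ × E) :
    (∃ (s : ℝ) (m : ℤ), x = (s, (m : ℝ) • e)) ∨ 0 < rho e x.2 := by
  rcases (rho_nonneg e x.2).eq_or_lt with h | h
  · left
    obtain ⟨m, hm⟩ := (rho_eq_zero d.he x.2).1 h.symm
    exact ⟨x.1, m, Prod.ext rfl hm⟩
  · exact Or.inr h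

lemma fU_notMem_G {e : E} (d : Dig e) {x : ℝ × E} (hx : 0 < rho e x.2) : d.fU x ∉ d.G :=
  fun h => h ⟨x, hx, rfl⟩

lemma bij_bijective {e : E} (d : Dig e) (ε : ℝ × ℤ ≃ d.G) : Function.Bijective (bij d ε) := by
  constructor
  · intro x y hxy
    rcases cases_rho d x with ⟨s, m, rfl⟩ | hx <;> rcases cases_rho d y with ⟨s', m', rfl⟩ | hy
    · rw [bij_line, bij_line] at hxy
      have := ε.injective (Subtype.ext hxy)
      rw [Prod.mk.injEq] at this
      rw [this.1, this.2]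
    · rw [bij_line, bij_off d ε hy] at hxy
      exact absurd (hxy ▸ (ε (s, m)).2) (fU_notMem_G d hy)
    · rw [bij_line, bij_off d ε hx] at hxy
      exact absurd (hxy.symm ▸ (ε (s', m')).2) (fU_notMem_G d hx)
    · rw [bij_off d ε hx, bij_off d ε hy] at hxy
      exact d.fU_inj hx hy hxy
  · intro y
    by_cases hy : y ∈ d.G
    · obtain ⟨⟨s, m⟩, hp⟩ := ε.surjective ⟨y, hy⟩
      refine ⟨(s, (m : ℝ) • e), ?_⟩
      rw [bij_line, hp]
    · rw [Dig.G, mem_compl_iff, not_not] at hy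
      obtain ⟨x, hx, rfl⟩ := hy
      exact ⟨x, bij_off d ε hx⟩

/-- The set of points far from all lines. -/
lemma interior_far {e : E} (he : ‖e‖ = 1) {r : ℤ → ℝ} (hr : ∀ m, r m ≤ 1 / 4) {y : ℝ × E}
    (hy : ∀ m : ℤ, r m < dist y.2 ((m : ℝ) • e)) :
    y ∈ interior {w : ℝ × E | ∀ m : ℤ, r m ≤ dist w.2 ((m : ℝ) • e)} := by
  rw [mem_interior_iff_mem_nhds, Metric.mem_nhds_iff]
  by_cases h : ∃ m₀ : ℤ, dist y.2 ((m₀ : ℝ) • e) < 1 / 2
  · obtain ⟨m₀, hm₀⟩ := h
    refine ⟨min (1 / 8) (dist y.2 ((m₀ : ℝ) • e) - r m₀),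
      lt_min (by norm_num) (by linarith [hy m₀]), ?_⟩
    intro w hw m
    have hw1 : dist w.2 y.2 < min (1 / 8) (dist y.2 ((m₀ : ℝ) • e) - r m₀) :=
      lt_of_le_of_lt (by rw [Prod.dist_eq]; exact le_max_right _ _) hw
    have h1 := lt_of_lt_of_le hw1 (min_le_left _ _)
    have h2 := lt_of_lt_of_le hw1 (min_le_right _ _)
    have h3 := dist_triangle y.2 w.2 ((m : ℝ) • e)
    rw [dist_comm y.2 w.2] at h3
    by_cases hmm : m = m₀
    · subst hmm
      linarith
    · have h4 := dist_lattice he m m₀ hmm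
      have h5 := dist_triangle_left ((m : ℝ) • e) ((m₀ : ℝ) • e) y.2
      have := hr m
      linarith
  · push Not at h
    refine ⟨1 / 8, by norm_num, ?_⟩
    intro w hw m
    have hw1 : dist w.2 y.2 < 1 / 8 :=
      lt_of_le_of_lt (by rw [Prod.dist_eq]; exact le_max_right _ _) hw
    have h3 := dist_triangle y.2 w.2 ((m : ℝ) • e)
    rw [dist_comm y.2 w.2] at h3
    have := hr m
    have := h m
    linarith

/-- Preconnected subsets of the union of the lines lie in one line. -/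
lemma subset_line {e : E} (he : ‖e‖ = 1) {S : Set (ℝ × E)} (hS : IsPreconnected S)
    (hD : ∀ x ∈ S, rho e x.2 = 0) {s₀ : ℝ} {m₀ : ℤ} (h0 : (s₀, (m₀ : ℝ) • e) ∈ S) :
    ∀ x ∈ S, x.2 = (m₀ : ℝ) • e := by
  intro x hx
  obtain ⟨m, hm⟩ := (rho_eq_zero he x.2).1 (hD x hx)
  by_contra hne
  have hmm : m ≠ m₀ := by
    rintro rfl
    exact hne hm
  have hpre : IsPreconnected ((fun y : ℝ × E => dist y.2 ((m₀ : ℝ) • e)) '' S) := by
    apply hS.image
    apply Continuous.continuousOn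
    fun_prop
  have h1 : (0 : ℝ) ∈ (fun y : ℝ × E => dist y.2 ((m₀ : ℝ) • e)) '' S := ⟨_, h0, by simp⟩
  have h2 : dist x.2 ((m₀ : ℝ) • e) ∈ (fun y : ℝ × E => dist y.2 ((m₀ : ℝ) • e)) '' S :=
    ⟨x, hx, rfl⟩
  have h3 : 1 ≤ dist x.2 ((m₀ : ℝ) • e) := by
    rw [hm]; exact dist_lattice he m m₀ hmm
  obtain ⟨y, hy, hy2⟩ := hpre.ordConnected.out h1 h2
    (show (1 / 2 : ℝ) ∈ Icc 0 (dist x.2 ((m₀ : ℝ) • e)) from ⟨by norm_num, by linarith⟩)
  obtain ⟨n, hn⟩ := (rho_eq_zero he y.2).1 (hD y hy)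
  simp only at hy2
  by_cases hnm : n = m₀
  · rw [hn, hnm, dist_self] at hy2
    norm_num at hy2
  · have := dist_lattice he n m₀ hnm
    rw [← hn, hy2] at this
    norm_num at this

/-- The main theorem on `ℝ × E`. -/
theorem main {e : E} (he : ‖e‖ = 1) (hcard : #(ℝ × E) ≤ 𝔠) :
    ∃ f : (ℝ × E) ≃ (ℝ × E), (∀ S : Set (ℝ × E), IsPreconnected S → IsPreconnected (f '' S)) ∧
      ∃ S : Set (ℝ × E), IsConnected S ∧ ¬ IsPreconnected (f.symm '' S) := by
  obtain ⟨d⟩ := exists_dig he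
  obtain ⟨T, hT1, hT2, hT3⟩ := exists_labels
  have e1 : (1 : ℝ) = 1 ∨ (1 : ℝ) = -1 := Or.inl rfl
  have e2 : (-1 : ℝ) = 1 ∨ (-1 : ℝ) = -1 := Or.inr rfl
  set M : ℤ → Set (ℝ × E) := fun i => d.wall 1 i '' Ioo (0:ℝ) (1 / 2) with hM
  have hMG : ∀ i, M i ⊆ d.G := by
    rintro i _ ⟨τ, hτ, rfl⟩
    exact d.wall_mem_G e1 i hτ
  have hdisj : ∀ i j, i ≠ j → Disjoint (M i) (M j) := by
    intro i j hij
    rw [Set.disjoint_left]
    rintro _ ⟨τ, hτ, rfl⟩ ⟨τ', hτ', h⟩
    exact hij (d.wall_inj e1 e1 hτ' hτ h).2.1.symm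
  have hIoo : #(↥(Ioo (0:ℝ) (1 / 2))) = 𝔠 := mk_Ioo_real (by norm_num)
  have hMc : ∀ i, 𝔠 ≤ #(M i) := by
    intro i
    rw [← hIoo]
    have hinj : Function.Injective (fun τ : ↥(Ioo (0:ℝ) (1 / 2)) =>
        (⟨d.wall 1 i τ, ⟨τ, τ.2, rfl⟩⟩ : M i)) := by
      intro τ τ' h
      exact Subtype.ext (d.wall_inj e1 e1 τ.2 τ'.2 (congrArg Subtype.val h)).2.2
    exact mk_le_of_injective hinj
  have hrest : 𝔠 ≤ #(↥(d.G \ ⋃ i, M i)) := by
    rw [← hIoo]
    have hmem : ∀ τ ∈ Ioo (0:ℝ) (1 / 2), d.wall (-1) 0 τ ∈ d.G \ ⋃ i, M i := by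
      intro τ hτ
      refine ⟨d.wall_mem_G e2 0 hτ, fun h => ?_⟩
      obtain ⟨i, τ', hτ', h'⟩ := mem_iUnion.1 h
      have := (d.wall_inj e1 e2 hτ' hτ h').1
      norm_num at this
    have hinj : Function.Injective (fun τ : ↥(Ioo (0:ℝ) (1 / 2)) =>
        (⟨d.wall (-1) 0 τ, hmem τ τ.2⟩ : ↥(d.G \ ⋃ i, M i))) := by
      intro τ τ' h
      exact Subtype.ext (d.wall_inj e2 e2 τ.2 τ'.2 (congrArg Subtype.val h)).2.2
    exact mk_le_of_injective hinj
  obtain ⟨ε, hε⟩ := exists_bij hcard d.G M hMG hdisj hMc hrest T hT1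
  let f : (ℝ × E) ≃ (ℝ × E) := Equiv.ofBijective (bij d ε) (bij_bijective d ε)
  have hf : ∀ x, f x = bij d ε x := fun x => rfl
  have hMpre : ∀ i, IsPreconnected (M i) := fun i => d.wall_preconnected e1 i
  have hMdense : ∀ i, d.G ⊆ closure (M i) := fun i => d.G_subset_closure_wall e1 i
  refine ⟨f, ?_, ?_⟩
  · -- connectedness is preserved
    have hprin := principle (bij d ε) {x : ℝ × E | rho e x.2 = 0} ?_ ?_ ?_ ?_
    · exact hprin
    · exact isClosed_eq ((continuous_rho e).comp continuous_snd) continuous_const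
    · -- continuity off the lines
      intro x hx
      have hx' : 0 < rho e x.2 := lt_of_le_of_ne (rho_nonneg e x.2) (Ne.symm hx)
      apply ContinuousAt.continuousWithinAt
      apply (d.fU_continuousAt hx').congr
      have hopen : IsOpen {x : ℝ × E | 0 < rho e x.2} :=
        isOpen_lt continuous_const ((continuous_rho e).comp continuous_snd)
      filter_upwards [hopen.mem_nhds hx'] with w hw
      exact (bij_off d ε hw).symm
    · -- the shell condition
      intro p hp A hA hpA x hx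
      have hx' : 0 < rho e x.2 := lt_of_le_of_ne (rho_nonneg e x.2) (Ne.symm hx)
      have hpG : bij d ε p ∈ d.G := by
        rcases cases_rho d p with ⟨s, m, rfl⟩ | h
        · rw [bij_line]; exact (ε (s, m)).2
        · exact absurd hp h.ne'
      obtain ⟨N, hN⟩ := d.exists_t_lt hx'
      have hsh := fun m : ℤ => d.G_shell hpG m hA hpA N
      choose k hk1 hk2 using hsh
      refine ⟨{w : ℝ × E | ∀ m : ℤ, d.t (k m) ≤ dist w.2 ((m : ℝ) • e)}, ?_, ?_, ?_, ?_⟩
      · have : {w : ℝ × E | ∀ m : ℤ, d.t (k m) ≤ dist w.2 ((m : ℝ) • e)} =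
            ⋂ m : ℤ, {w : ℝ × E | d.t (k m) ≤ dist w.2 ((m : ℝ) • e)} := by
          ext w; simp
        rw [this]
        apply isClosed_iInter
        intro m
        apply isClosed_le continuous_const
        fun_prop
      · intro m
        have h1 := hN (k m) (hk1 m)
        have h2 : rho e x.2 ≤ dist x.2 ((m : ℝ) • e) := infDist_le_dist_of_mem ⟨m, rfl⟩
        linarith
      · rw [Set.disjoint_left]
        intro w hw hwD
        obtain ⟨m, hm⟩ := (rho_eq_zero he w.2).1 hwD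
        have h1 := hw m
        rw [hm, dist_self] at h1
        exact absurd h1 (not_le.2 (d.tpos _))
      · intro y hy
        have hyK : ∀ m : ℤ, d.t (k m) ≤ dist y.2 ((m : ℝ) • e) := by
          have hcl : IsClosed {w : ℝ × E | ∀ m : ℤ, d.t (k m) ≤ dist w.2 ((m : ℝ) • e)} := by
            have : {w : ℝ × E | ∀ m : ℤ, d.t (k m) ≤ dist w.2 ((m : ℝ) • e)} =
                ⋂ m : ℤ, {w : ℝ × E | d.t (k m) ≤ dist w.2 ((m : ℝ) • e)} := by
              ext w; simp
            rw [this]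
            apply isClosed_iInter
            intro m
            apply isClosed_le continuous_const
            fun_prop
          exact hcl.frontier_subset hy
        obtain ⟨m, hm⟩ : ∃ m : ℤ, dist y.2 ((m : ℝ) • e) = d.t (k m) := by
          by_contra hno
          push Not at hno
          have hlt : ∀ m : ℤ, d.t (k m) < dist y.2 ((m : ℝ) • e) := fun m =>
            lt_of_le_of_ne (hyK m) (hno m).symm
          exact hy.2 (interior_far he (fun m => d.t_le (k m)) hlt)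
        have hrho : rho e y.2 = d.t (k m) := by
          rw [rho_eq_dist he y.2 m (by rw [hm]; linarith [d.t_le (k m)]), hm]
        have hpos : 0 < rho e y.2 := by rw [hrho]; exact d.tpos _
        rw [bij_off d ε hpos]
        exact d.Hl_slice (hk2 m) (jj_abs_le y) hm
    · -- connectedness inside the lines
      intro S hSD hS
      rcases S.eq_empty_or_nonempty with rfl | ⟨x₀, hx₀⟩
      · simpa using isPreconnected_empty
      obtain ⟨s₀, m₀, rfl⟩ : ∃ (s : ℝ) (m : ℤ), x₀ = (s, (m : ℝ) • e) := by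
        rcases cases_rho d x₀ with h | h
        · exact h
        · exact absurd (hSD hx₀) h.ne'
      have hline := subset_line he hS (fun x hx => hSD hx) hx₀
      have hI : (Prod.fst '' S).OrdConnected := (hS.image _ continuous_fst.continuousOn).ordConnected
      have himg : bij d ε '' S ⊆ d.G := by
        rintro _ ⟨x, hx, rfl⟩
        have : x = (x.1, (m₀ : ℝ) • e) := Prod.ext rfl (hline x hx)
        rw [this, bij_line]
        exact (ε (x.1, m₀)).2
      by_cases hsub : (bij d ε '' S).Subsingleton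
      · exact hsub.isPreconnected
      · rw [Set.not_subsingleton_iff] at hsub
        obtain ⟨_, ⟨x, hx, rfl⟩, _, ⟨y, hy, rfl⟩, hxy⟩ := hsub
        have hxy1 : x.1 ≠ y.1 := by
          intro h
          apply hxy
          have : x = y := Prod.ext h ((hline x hx).trans (hline y hy).symm)
          rw [this]
        -- two different abscissas
        obtain ⟨a, b, hab, ha, hb⟩ : ∃ a b : ℝ, a < b ∧ a ∈ Prod.fst '' S ∧ b ∈ Prod.fst '' S := by
          rcases lt_or_gt_of_ne hxy1 with h | h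
          · exact ⟨x.1, y.1, h, ⟨x, hx, rfl⟩, ⟨y, hy, rfl⟩⟩
          · exact ⟨y.1, x.1, h, ⟨y, hy, rfl⟩, ⟨x, hx, rfl⟩⟩
        obtain ⟨i, hi⟩ := hT2 m₀ a b hab
        have hMi : M i ⊆ bij d ε '' S := by
          intro w hw
          obtain ⟨p, hp⟩ := ε.surjective ⟨w, hMG i hw⟩
          have hpw : (ε p : ℝ × E) = w := by rw [hp]
          have hTp : T p = some i := (hε p i).1 (by rw [hpw]; exact hw)
          obtain ⟨h1, h2⟩ := hi p hTp
          obtain ⟨z, hz, hz1⟩ := hI.out ha hb ⟨h2.1.le, h2.2.le⟩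
          refine ⟨z, hz, ?_⟩
          have : z = (p.1, (m₀ : ℝ) • e) := Prod.ext hz1 (hline z hz)
          rw [this, bij_line, ← hpw, ← h1]
        exact (hMpre i).subset_closure hMi (himg.trans (hMdense i))
  · -- the inverse
    obtain ⟨i, m, hline, x, y, z, hxy, hyz, hx, hy, hz⟩ := hT3
    refine ⟨M i, ⟨⟨_, ⟨1 / 4, by norm_num, rfl⟩⟩, hMpre i⟩, ?_⟩
    intro hpre
    have hI : (Prod.fst '' (f.symm '' M i)).OrdConnected :=
      (hpre.image _ continuous_fst.continuousOn).ordConnected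
    have hmem : ∀ s, T (s, m) = some i → s ∈ Prod.fst '' (f.symm '' M i) := by
      intro s hs
      refine ⟨(s, (m : ℝ) • e), ⟨ε (s, m), (hε _ i).2 hs, ?_⟩, rfl⟩
      rw [Equiv.symm_apply_eq, hf, bij_line]
    obtain ⟨p, ⟨w, hw, hwp⟩, hp⟩ := hI.out (hmem x hx) (hmem z hz) ⟨hxy.le, hyz.le⟩
    rw [Equiv.symm_apply_eq] at hwp
    rcases cases_rho d p with ⟨s, m', rfl⟩ | h
    · rw [hf, bij_line] at hwp
      have hT' : T (s, m') = some i := (hε _ i).1 (by rw [← hwp]; exact hw)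
      have hm' : m' = m := hline _ hT'
      have hs : s = y := hp
      rw [hm', hs] at hT'
      exact hy hT'
    · rw [hf, bij_off d ε h] at hwp
      exact fU_notMem_G d h (hwp ▸ hMG i hw)

end ConnBij
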