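import Mathlib

/-!
# Connected bijections of `ℝⁿ` (MP_8f6e3d_gt), part 1: ambient homeomorphisms and the principle
-/

open Set Metric Topology

namespace ConnBij

section push

variable {F : Type*} [NormedAddCommGroup F] [NormedSpace ℝ F] [CompleteSpace F]

lemma push_lip (c a : F) {r : ℝ} (hr : 0 < r) (x y : F) :
    ‖(max 0 (1 - ‖x - c‖ / r)) • (a - c) - (max 0 (1 - ‖y - c‖ / r)) • (a - c)‖
      ≤ (‖a - c‖ / r) * ‖x - y‖ := by
  rw [← sub_smul, norm_smul]
  have h1 : |max 0 (1 - ‖x - c‖ / r) - max 0 (1 - ‖y - c‖ / r)| ≤ ‖x - y‖ / r := by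
    calc |max 0 (1 - ‖x - c‖ / r) - max 0 (1 - ‖y - c‖ / r)|
        = |max (1 - ‖x - c‖ / r) 0 - max (1 - ‖y - c‖ / r) 0| := by
          rw [max_comm 0, max_comm 0]
      _ ≤ |(1 - ‖x - c‖ / r) - (1 - ‖y - c‖ / r)| := abs_max_sub_max_le_abs _ _ _
      _ = |‖x - c‖ - ‖y - c‖| / r := by
          rw [← abs_of_pos hr, ← abs_div, abs_of_pos hr, ← abs_neg]
          congr 1
          ring
      _ ≤ ‖x - y‖ / r := by
          apply div_le_div_of_nonneg_right _ hr.le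
          have := abs_norm_sub_norm_le (x - c) (y - c)
          simpa using this
  rw [Real.norm_eq_abs]
  calc _ ≤ ‖x - y‖ / r * ‖a - c‖ := by gcongr
    _ = (‖a - c‖ / r) * ‖x - y‖ := by ring

/-- A homeomorphism supported in the ball `B(c,r)` moving its centre to a given point. -/
lemma exists_push (c a : F) {r : ℝ} (h : dist a c < r) :
    ∃ Θ : F ≃ₜ F, Θ c = a ∧ ∀ x, x ∉ ball c r → Θ x = x := by
  have hr : 0 < r := lt_of_le_of_lt dist_nonneg h
  set f : F → F := fun x => x + (max 0 (1 - ‖x - c‖ / r)) • (a - c) with hf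
  have hK : (0:ℝ) ≤ ‖a - c‖ / r := by positivity
  have hK1 : ‖a - c‖ / r < 1 := by
    rw [div_lt_one hr, ← dist_eq_norm]; exact h
  have happ : ApproximatesLinearOn f
      ((ContinuousLinearEquiv.refl ℝ F : F ≃L[ℝ] F) : F →L[ℝ] F) univ ⟨‖a - c‖ / r, hK⟩ := by
    intro x _ y _
    have : f x - f y - ((ContinuousLinearEquiv.refl ℝ F : F ≃L[ℝ] F) : F →L[ℝ] F) (x - y)
        = (max 0 (1 - ‖x - c‖ / r)) • (a - c) - (max 0 (1 - ‖y - c‖ / r)) • (a - c) := by
      simp only [hf, ContinuousLinearEquiv.coe_refl, ContinuousLinearMap.coe_id', id_eq]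
      abel
    rw [this]
    exact push_lip c a hr x y
  rcases subsingleton_or_nontrivial F with hs | hs
  · exact ⟨Homeomorph.refl F, Subsingleton.elim _ _, fun x _ => rfl⟩
  have hc : Subsingleton F ∨ (⟨‖a - c‖ / r, hK⟩ : NNReal) <
      ‖((ContinuousLinearEquiv.refl ℝ F : F ≃L[ℝ] F).symm : F →L[ℝ] F)‖₊⁻¹ := by
    right
    have : ‖((ContinuousLinearEquiv.refl ℝ F : F ≃L[ℝ] F).symm : F →L[ℝ] F)‖₊ = 1 := by
      have h1 : ‖(ContinuousLinearMap.id ℝ F)‖₊ = 1 := by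
        apply NNReal.eq
        exact ContinuousLinearMap.norm_id
      exact h1
    rw [this, inv_one]
    exact hK1
  refine ⟨happ.toHomeomorph f hc, ?_, ?_⟩
  · change f c = a
    simp [hf]
  · intro x hx
    change f x = x
    have : 1 - ‖x - c‖ / r ≤ 0 := by
      rw [mem_ball, not_lt, dist_eq_norm] at hx
      rw [sub_nonpos, le_div_iff₀ hr]
      linarith
    simp [hf, max_eq_left this]

/-- Connected open sets are homogeneous under ambient homeomorphisms supported in them. -/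
lemma exists_homeo {W : Set F} (hW : IsOpen W) (hc : IsPreconnected W) {c q : F}
    (h1 : c ∈ W) (h2 : q ∈ W) : ∃ Θ : F ≃ₜ F, Θ c = q ∧ ∀ x, x ∉ W → Θ x = x := by
  refine hc.induction₂' (fun c q => ∃ Θ : F ≃ₜ F, Θ c = q ∧ ∀ x, x ∉ W → Θ x = x)
    ?_ ?_ h1 h2
  · intro x hx
    obtain ⟨r, hr, hrW⟩ := Metric.isOpen_iff.1 hW x hx
    have : ∀ y ∈ ball x r, (∃ Θ : F ≃ₜ F, Θ x = y ∧ ∀ z, z ∉ W → Θ z = z) ∧
        (∃ Θ : F ≃ₜ F, Θ y = x ∧ ∀ z, z ∉ W → Θ z = z) := by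
      intro y hy
      obtain ⟨Θ, hΘ1, hΘ2⟩ := exists_push x y (mem_ball.1 hy)
      refine ⟨⟨Θ, hΘ1, fun z hz => hΘ2 z (fun h => hz (hrW h))⟩, ⟨Θ.symm, ?_, ?_⟩⟩
      · rw [← hΘ1]; simp
      · intro z hz
        have := hΘ2 z (fun h => hz (hrW h))
        rw [Homeomorph.symm_apply_eq, this]
    exact mem_nhdsWithin_of_mem_nhds (Filter.mem_of_superset (ball_mem_nhds x hr) this)
  · intro x y z _ _ _ ⟨Θ, h1, h2⟩ ⟨Θ', h1', h2'⟩
    refine ⟨Θ.trans Θ', ?_, ?_⟩
    · simp [h1, h1']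
    · intro w hw
      simp [h2 w hw, h2' w hw]

end push

section principle

variable {X Y : Type*} [TopologicalSpace X] [TopologicalSpace Y]

/-- The one-sided version of the argument: no point of `S` outside `D` is sent into `v`. -/
lemma principle_aux (f : X → Y) (D : Set X) (hD : IsClosed D) (hU : ContinuousOn f Dᶜ)
    (hF : ∀ p ∈ D, ∀ A : Set Y, IsOpen A → f p ∈ A → ∀ x ∉ D, ∃ K : Set X,
      IsClosed K ∧ x ∈ K ∧ Disjoint K D ∧ ∀ y ∈ frontier K, f y ∈ A)
    {S : Set X} (hS : IsPreconnected S) {u v : Set Y} (hu : IsOpen u) (hv : IsOpen v)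
    (hcov : f '' S ⊆ u ∪ v) (hemp : ¬ (f '' S ∩ (u ∩ v)).Nonempty) {p : X} (hpS : p ∈ S)
    (hpD : p ∈ D) (hpu : f p ∈ u) {x : X} (hxS : x ∈ S) (hxD : x ∉ D) : f x ∉ v := by
  intro hxv
  obtain ⟨K, hKc, hxK, hKD, hKf⟩ := hF p hpD u hu hpu x hxD
  have hnot : ∀ y ∈ S, f y ∈ u → f y ∈ v → False := by
    intro y hy h1 h2
    exact hemp ⟨f y, ⟨y, hy, rfl⟩, h1, h2⟩
  -- the open sets
  have hUo : IsOpen (Dᶜ : Set X) := hD.isOpen_compl
  have hO1 : IsOpen (interior K ∩ (Dᶜ ∩ f ⁻¹' v)) :=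
    isOpen_interior.inter (hU.isOpen_inter_preimage hUo hv)
  have hO2 : IsOpen (Kᶜ ∪ (Dᶜ ∩ f ⁻¹' u)) :=
    hKc.isOpen_compl.union (hU.isOpen_inter_preimage hUo hu)
  have hcover : S ⊆ (interior K ∩ (Dᶜ ∩ f ⁻¹' v)) ∪ (Kᶜ ∪ (Dᶜ ∩ f ⁻¹' u)) := by
    intro y hy
    by_cases hyK : y ∈ K
    · have hyD : y ∉ D := fun h => (Set.disjoint_left.1 hKD) hyK h
      rcases hcov ⟨y, hy, rfl⟩ with h | h
      · right; right; exact ⟨hyD, h⟩
      · by_cases hyi : y ∈ interior K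
        · left; exact ⟨hyi, hyD, h⟩
        · exfalso
          have : y ∈ frontier K := by
            rw [hKc.frontier_eq]; exact ⟨hyK, hyi⟩
          exact hnot y hy (hKf y this) h
    · right; left; exact hyK
  have hxi : x ∈ interior K := by
    by_contra hxi
    have : x ∈ frontier K := by
      rw [hKc.frontier_eq]; exact ⟨hxK, hxi⟩
    exact hnot x hxS (hKf x this) hxv
  obtain ⟨y, hyS, hy1, hy2⟩ := hS _ _ hO1 hO2 hcover ⟨x, hxS, hxi, hxD, hxv⟩
    ⟨p, hpS, Or.inl (fun h => (Set.disjoint_left.1 hKD) h hpD)⟩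
  rcases hy2 with h | h
  · exact h (interior_subset hy1.1)
  · exact hnot y hyS h.2 hy1.2.2

/-- **Principle.** A function which is continuous off a closed set `D`, preserves connectedness
inside `D`, and satisfies the shell condition `hF`, preserves connectedness. -/
theorem principle (f : X → Y) (D : Set X) (hD : IsClosed D) (hU : ContinuousOn f Dᶜ)
    (hF : ∀ p ∈ D, ∀ A : Set Y, IsOpen A → f p ∈ A → ∀ x ∉ D, ∃ K : Set X,
      IsClosed K ∧ x ∈ K ∧ Disjoint K D ∧ ∀ y ∈ frontier K, f y ∈ A)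
    (hg : ∀ S ⊆ D, IsPreconnected S → IsPreconnected (f '' S)) :
    ∀ S : Set X, IsPreconnected S → IsPreconnected (f '' S) := by
  intro S hS
  by_cases hSD : (S ∩ D).Nonempty
  · obtain ⟨p, hpS, hpD⟩ := hSD
    by_cases hsub : S ⊆ D
    · exact hg S hsub hS
    obtain ⟨x, hxS, hxD⟩ := Set.not_subset.1 hsub
    intro u v hu hv hcov hnu hnv
    by_contra hemp
    have hemp' : ¬ (f '' S ∩ (v ∩ u)).Nonempty := by rwa [inter_comm v u]
    have hcov' : f '' S ⊆ v ∪ u := by rwa [union_comm v u]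
    -- once some point of `S ∩ D` is sent to `u`, all points of `S \ D` are sent to `u`
    have key : ∀ u v : Set Y, IsOpen u → IsOpen v → f '' S ⊆ u ∪ v →
        ¬ (f '' S ∩ (u ∩ v)).Nonempty → f p ∈ u → (f '' S ∩ v).Nonempty → False := by
      intro u v hu hv hcov hemp hpu hnv
      have h1 : ∀ y ∈ S, y ∉ D → f y ∉ v := fun y hy hyD =>
        principle_aux f D hD hU hF hS hu hv hcov hemp hpS hpD hpu hy hyD
      obtain ⟨_, ⟨y, hyS, rfl⟩, hyv⟩ := hnv
      have hyD : y ∈ D := by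
        by_contra h
        exact h1 y hyS h hyv
      have hemp' : ¬ (f '' S ∩ (v ∩ u)).Nonempty := by rwa [inter_comm v u]
      have hcov' : f '' S ⊆ v ∪ u := by rwa [union_comm v u]
      have h2 := principle_aux f D hD hU hF hS hv hu hcov' hemp' hyS hyD hyv hxS hxD
      rcases hcov ⟨x, hxS, rfl⟩ with h | h
      · exact h2 h
      · exact h1 x hxS hxD h
    rcases hcov ⟨p, hpS, rfl⟩ with h | h
    · exact key u v hu hv hcov hemp h hnv
    · exact key v u hv hu hcov' hemp' h hnu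
  · have : S ⊆ Dᶜ := by
      intro x hx hxD
      exact hSD ⟨x, hx, hxD⟩
    exact hS.image f (hU.mono this)

end principle

end ConnBij
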